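import Pool.Agent.H773.IE.SR

/-!
# Project IE (helper773), job IE-ERG: arbitrarily small levels imply ergodicity

Let `A` be an invariant set of positive measure whose complement has positive measure. In a level
`[0, b)` both sets have a relative measure which is bounded from below, because the towers cover
`[0, 1)` and their heights are at most `C / b`; hence the same is true for all floors over `[0, b)`.
The union of these floors has measure at least `c`, so that a set of points of measure at least `c`
is in floors of infinitely many levels; almost all of these points are density points of `A` or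
of the complement, a contradiction.
-/

set_option autoImplicit false

open MeasureTheory Set Filter Topology
open scoped ENNReal

namespace Pool.Agent.H549.IE

open Pool.Agent.H773.IE

section orbits

variable {n : ℕ} {T : ℝ → ℝ} {P : Fin n → Set ℝ} {τ : Fin n → ℝ}

/-- A point which follows a word is translated. -/
theorem foll_take (hT : ∀ j, ∀ x ∈ P j, T x = x + τ j) (w : List (Fin n)) :
    ∀ x, Follows T P w x → ∀ k ≤ w.length, T^[k] x = x + tr τ (w.take k) := by
  induction w with
  | nil =>
    intro x _ k hk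
    have h0 : k = 0 := by simpa using hk
    subst h0
    simp [tr]
  | cons j w ih =>
    intro x hx k hk
    cases k with
    | zero => simp [tr]
    | succ k =>
      rw [Function.iterate_succ_apply, ih (T x) hx.2 k (by simpa using hk), hT j x hx.1,
        List.take_succ_cons]
      simp only [tr, List.map_cons, List.sum_cons]
      ring

/-- A point which follows a word stays in the union of the pieces. -/
theorem foll_mem (w : List (Fin n)) :
    ∀ x, Follows T P w x → ∀ k < w.length, T^[k] x ∈ ⋃ j, P j := by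
  induction w with
  | nil =>
    intro x _ k hk
    exact absurd hk (Nat.not_lt_zero k)
  | cons j w ih =>
    intro x hx k hk
    cases k with
    | zero => exact mem_iUnion.mpr ⟨j, hx.1⟩
    | succ k =>
      rw [Function.iterate_succ_apply]
      exact ih (T x) hx.2 k (by simpa using hk)

/-- Iterates and invariant sets. -/
theorem iter_mem {A : Set ℝ} (hA : T ⁻¹' A = A) (k : ℕ) : ∀ x, T^[k] x ∈ A ↔ x ∈ A := by
  induction k with
  | zero => intro x; exact Iff.rfl
  | succ k ih =>
    intro x
    rw [Function.iterate_succ_apply, ih (T x)]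
    constructor
    · intro h
      rw [← hA]
      exact h
    · intro h
      rw [← hA] at h
      exact h

end orbits

section level

variable {n : ℕ} {T : ℝ → ℝ} {P : Fin n → Set ℝ} {τ : Fin n → ℝ} {c C b : ℝ} {u l : Fin n → ℝ}
  {w : Fin n → List (Fin n)} {p : List (Fin n)}

/-- the `j`-th floor over `[0, b)` -/
noncomputable def floor (τ : Fin n → ℝ) (b : ℝ) (p : List (Fin n)) (j : ℕ) : Set ℝ :=
  Ico (tr τ (p.take j)) (tr τ (p.take j) + b)

/-- the union of the floors over `[0, b)` -/
noncomputable def floors (τ : Fin n → ℝ) (b : ℝ) (p : List (Fin n)) : Set ℝ :=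
  ⋃ j ∈ Finset.range p.length, floor τ b p j

theorem measurableSet_floors (τ : Fin n → ℝ) (b : ℝ) (p : List (Fin n)) :
    MeasurableSet (floors τ b p) :=
  Finset.measurableSet_biUnion _ fun _ _ => measurableSet_Ico

/-- The union of the floors has measure at least `c`. -/
theorem le_floors (hL : Lev T P τ c C b u l w p) :
    ENNReal.ofReal c ≤ volume (floors τ b p) := by
  unfold floors
  rw [measure_biUnion_finset]
  · have h1 : ∀ j ∈ Finset.range p.length, volume (floor τ b p j) = ENNReal.ofReal b := by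
      intro j _
      unfold floor
      rw [Real.volume_Ico, add_sub_cancel_left]
    rw [Finset.sum_congr rfl h1, Finset.sum_const, Finset.card_range, nsmul_eq_mul,
      ← ENNReal.ofReal_natCast, ← ENNReal.ofReal_mul (Nat.cast_nonneg _)]
    exact ENNReal.ofReal_le_ofReal hL.high
  · intro j hj k hk hjk
    exact hL.disj j k (Finset.mem_range.mp hj) (Finset.mem_range.mp hk) hjk
  · intro j _
    exact measurableSet_Ico

/-- The floors are in `[0, 1)`. -/
theorem floors_sub (hS : Sys T P τ) (hL : Lev T P τ c C b u l w p) :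
    floors τ b p ⊆ Ico 0 1 := by
  intro y hy
  unfold floors floor at hy
  simp only [mem_iUnion, Finset.mem_range] at hy
  obtain ⟨j, hj, hy⟩ := hy
  have h1 : y - tr τ (p.take j) ∈ Ico 0 b := ⟨by linarith [hy.1], by linarith [hy.2]⟩
  have h2 := foll_mem p _ (hL.itin0 _ h1) j hj
  rw [foll_take hS.trans p _ (hL.itin0 _ h1) j hj.le, sub_add_cancel, ← hS.cover] at h2
  exact h2

/-- The measure of an invariant set in a floor. -/
theorem floor_meas (hS : Sys T P τ) (hL : Lev T P τ c C b u l w p) {A : Set ℝ}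
    (hA : T ⁻¹' A = A) {j : ℕ} (hj : j < p.length) :
    volume (A ∩ floor τ b p j) = volume (A ∩ Ico 0 b) := by
  have h1 : A ∩ Ico 0 b = (fun x => x + tr τ (p.take j)) ⁻¹' (A ∩ floor τ b p j) := by
    ext x
    have h2 : x + tr τ (p.take j) ∈ floor τ b p j ↔ x ∈ Ico 0 b := by
      unfold floor
      constructor
      · intro h
        exact ⟨by linarith [h.1], by linarith [h.2]⟩
      · intro h
        exact ⟨by linarith [h.1], by linarith [h.2]⟩
    constructor
    · rintro ⟨h3, h4⟩
      refine ⟨?_, h2.mpr h4⟩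
      change x + tr τ (p.take j) ∈ A
      rw [← foll_take hS.trans p _ (hL.itin0 _ h4) j hj.le]
      exact (iter_mem hA j x).mpr h3
    · rintro ⟨h3, h4⟩
      have h5 : x ∈ Ico 0 b := h2.mp h4
      refine ⟨?_, h5⟩
      change x + tr τ (p.take j) ∈ A at h3
      rw [← foll_take hS.trans p _ (hL.itin0 _ h5) j hj.le] at h3
      exact (iter_mem hA j x).mp h3
  rw [h1, measure_preimage_add_right]

/-- The towers cover `[0, 1)`. -/
theorem cover_meas (hS : Sys T P τ) (hL : Lev T P τ c C b u l w p) {A : Set ℝ}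
    (hA : T ⁻¹' A = A) :
    volume (A ∩ Ico 0 1) ≤ ∑ i, ((w i).length : ℝ≥0∞) * volume (A ∩ Ico 0 b) := by
  have h1 : A ∩ Ico 0 1 ⊆ ⋃ i, ⋃ k ∈ Finset.range (w i).length,
      (fun x => x + (-tr τ ((w i).take k))) ⁻¹' (A ∩ Ico 0 b) := by
    rintro y ⟨hyA, hy⟩
    obtain ⟨i, x, hx, k, hk, hxy⟩ := hL.cover y hy
    rw [mem_iUnion]
    refine ⟨i, ?_⟩
    rw [mem_iUnion₂]
    refine ⟨k, Finset.mem_range.mpr hk, ?_⟩
    have h2 := foll_take hS.trans (w i) x (hL.itin i x hx) k hk.le
    have h3 : y + -tr τ ((w i).take k) = x := by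
      rw [← hxy, h2]
      ring
    change y + -tr τ ((w i).take k) ∈ A ∩ Ico 0 b
    rw [h3]
    refine ⟨?_, ?_, ?_⟩
    · rw [← hxy] at hyA
      exact (iter_mem hA k x).mp hyA
    · exact (hL.sub i).1.trans hx.1
    · exact lt_of_lt_of_le hx.2 (hL.sub i).2
  refine (measure_mono h1).trans ?_
  refine (measure_iUnion_fintype_le _ _).trans ?_
  refine Finset.sum_le_sum fun i _ => ?_
  refine (measure_biUnion_finset_le _ _).trans ?_
  have h4 : ∀ k ∈ Finset.range (w i).length,
      volume ((fun x => x + (-tr τ ((w i).take k))) ⁻¹' (A ∩ Ico 0 b)) =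
        volume (A ∩ Ico 0 b) := fun k _ => measure_preimage_add_right _ _ _
  rw [Finset.sum_congr rfl h4, Finset.sum_const, Finset.card_range, nsmul_eq_mul]

/-- An invariant set has a large relative measure in every floor. -/
theorem floor_large (hS : Sys T P τ) (hL : Lev T P τ c C b u l w p) {A : Set ℝ}
    (hA : T ⁻¹' A = A) {j : ℕ} (hj : j < p.length) :
    (volume (A ∩ Ico 0 1)).toReal * b ≤ n * C * (volume (A ∩ floor τ b p j)).toReal := by
  rw [floor_meas hS hL hA hj]
  have hfin : volume (A ∩ Ico 0 b) ≠ ∞ :=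
    ((measure_mono inter_subset_right).trans_lt measure_Ico_lt_top).ne
  have h1 : (volume (A ∩ Ico 0 1)).toReal ≤
      ∑ i, ((w i).length : ℝ) * (volume (A ∩ Ico 0 b)).toReal := by
    have h2 := ENNReal.toReal_mono
      (ENNReal.sum_ne_top.mpr fun i _ => ENNReal.mul_ne_top (ENNReal.natCast_ne_top _) hfin)
      (cover_meas hS hL hA)
    rw [ENNReal.toReal_sum (fun i _ => ENNReal.mul_ne_top (ENNReal.natCast_ne_top _) hfin)] at h2
    refine h2.trans (le_of_eq (Finset.sum_congr rfl fun i _ => ?_))
    rw [ENNReal.toReal_mul, ENNReal.toReal_natCast]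
  have h3 : 0 ≤ (volume (A ∩ Ico 0 b)).toReal := ENNReal.toReal_nonneg
  calc (volume (A ∩ Ico 0 1)).toReal * b
      ≤ (∑ i, ((w i).length : ℝ) * (volume (A ∩ Ico 0 b)).toReal) * b :=
        mul_le_mul_of_nonneg_right h1 hL.bpos.le
    _ = ∑ i, ((w i).length * b) * (volume (A ∩ Ico 0 b)).toReal := by
        rw [Finset.sum_mul]
        exact Finset.sum_congr rfl fun i _ => by ring
    _ ≤ ∑ _i : Fin n, C * (volume (A ∩ Ico 0 b)).toReal :=
        Finset.sum_le_sum fun i _ => mul_le_mul_of_nonneg_right (hL.low i) h3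
    _ = n * C * (volume (A ∩ Ico 0 b)).toReal := by
        rw [Finset.sum_const, Finset.card_univ, Fintype.card_fin, nsmul_eq_mul]
        ring

end level

/-- The points in the sets `X k` for infinitely many `k`. -/
def lims (X : ℕ → Set ℝ) : Set ℝ := ⋂ N : ℕ, ⋃ k ∈ Ici N, X k

theorem mem_lims {X : ℕ → Set ℝ} {x : ℝ} : x ∈ lims X ↔ ∃ᶠ k in atTop, x ∈ X k := by
  unfold lims
  rw [frequently_atTop]
  simp only [mem_iInter, mem_iUnion, mem_Ici, exists_prop]

/-- The measure of the limes superior. -/
theorem le_lims {X : ℕ → Set ℝ} (hX : ∀ k, MeasurableSet (X k)) (h1 : ∀ k, X k ⊆ Ico 0 1)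
    {a : ℝ≥0∞} (ha : ∀ k, a ≤ volume (X k)) : a ≤ volume (lims X) := by
  have hmeas : ∀ N : ℕ, MeasurableSet (⋃ k ∈ Ici N, X k) := fun N =>
    MeasurableSet.biUnion (to_countable _) fun k _ => hX k
  have hanti : Antitone fun N : ℕ => ⋃ k ∈ Ici N, X k := by
    intro N M hNM
    exact biUnion_subset_biUnion_left (Ici_subset_Ici.mpr hNM)
  have hfin : volume (⋃ k ∈ Ici 0, X k) ≠ ∞ := by
    refine ((measure_mono (iUnion₂_subset fun k _ => h1 k)).trans_lt measure_Ico_lt_top).ne
  have h2 := tendsto_measure_iInter_atTop (μ := volume) (s := fun N : ℕ => ⋃ k ∈ Ici N, X k)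
    (fun N => (hmeas N).nullMeasurableSet) hanti ⟨0, hfin⟩
  refine ge_of_tendsto' h2 fun N => ?_
  refine (ha N).trans (measure_mono ?_)
  exact subset_biUnion_of_mem (u := X) (mem_Ici.mpr le_rfl)

/-- A set `A` whose complement has a large relative measure in short intervals has no density
points which are in infinitely many of these intervals. -/
theorem null_of_density {A : Set ℝ} (hA : MeasurableSet A) (X : ℕ → Set ℝ) (b : ℕ → ℝ)
    (hb : ∀ k, 0 < b k) (hb0 : Tendsto b atTop (𝓝 0)) (η : ℝ) (hη : 0 < η)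
    (hX : ∀ k, ∀ x ∈ X k, ∃ t : ℝ, x ∈ Ico t (t + b k) ∧
      η * b k ≤ (volume (Aᶜ ∩ Ico t (t + b k))).toReal) :
    volume (A ∩ lims X) = 0 := by
  rw [measure_eq_zero_iff_ae_notMem]
  have h1 := (ae_restrict_iff' hA).mp
    (IsUnifLocDoublingMeasure.ae_tendsto_measure_inter_div (volume : Measure ℝ) A 1)
  filter_upwards [h1] with x hx hxA
  have h3 : ∃ᶠ k in atTop, x ∈ X k := mem_lims.mp hxA.2
  have hne : (atTop ⊓ 𝓟 {k | x ∈ X k}).NeBot := frequently_iff_neBot.mp h3
  have hch : ∀ k, ∃ t : ℝ, x ∈ X k → (x ∈ Ico t (t + b k) ∧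
      η * b k ≤ (volume (Aᶜ ∩ Ico t (t + b k))).toReal) := by
    intro k
    by_cases hk : x ∈ X k
    · obtain ⟨t, ht⟩ := hX k x hk
      exact ⟨t, fun _ => ht⟩
    · exact ⟨0, fun h => absurd h hk⟩
  choose t ht using hch
  have hev : ∀ᶠ k in atTop ⊓ 𝓟 {k | x ∈ X k}, x ∈ X k :=
    eventually_inf_principal.mpr (Eventually.of_forall fun k hk => hk)
  have h4 := hx hxA.1 (ι := ℕ) (l := atTop ⊓ 𝓟 {k | x ∈ X k}) (fun k => t k + b k / 2) (fun k => b k / 2)
    (by
      refine tendsto_nhdsWithin_iff.mpr ⟨?_, Eventually.of_forall fun k => ?_⟩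
      · have h5 : Tendsto (fun k => b k / 2) atTop (𝓝 (0 / 2)) := hb0.div_const 2
        rw [zero_div] at h5
        exact h5.mono_left inf_le_left
      · exact half_pos (hb k))
    (by
      filter_upwards [hev] with k hk
      have h6 := (ht k hk).1
      rw [Real.closedBall_eq_Icc]
      exact ⟨by linarith [h6.1], by linarith [h6.2]⟩)
  have h7 : Tendsto (fun k => (volume (A ∩ Metric.closedBall (t k + b k / 2) (b k / 2)) /
      volume (Metric.closedBall (t k + b k / 2) (b k / 2))).toReal)
      (atTop ⊓ 𝓟 {k | x ∈ X k}) (𝓝 (1 : ℝ)) := by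
    have h8 := (ENNReal.tendsto_toReal ENNReal.one_ne_top).comp h4
    rw [ENNReal.toReal_one] at h8
    exact h8
  have h9 : (1 : ℝ) ≤ 1 - η := by
    refine le_of_tendsto h7 ?_
    filter_upwards [hev] with k hk
    have h10 : Metric.closedBall (t k + b k / 2) (b k / 2) = Icc (t k) (t k + b k) := by
      rw [Real.closedBall_eq_Icc]
      congr 1 <;> ring
    have hvol : volume (Icc (t k) (t k + b k)) = ENNReal.ofReal (b k) := by
      rw [Real.volume_Icc, add_sub_cancel_left]
    have h11 : volume (A ∩ Icc (t k) (t k + b k)) + volume (Aᶜ ∩ Ico (t k) (t k + b k)) ≤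
        ENNReal.ofReal (b k) := by
      rw [← hvol, ← measure_union']
      · refine measure_mono (union_subset inter_subset_right ?_)
        exact inter_subset_right.trans Ico_subset_Icc_self
      · exact (disjoint_compl_right (a := A)).mono inter_subset_left inter_subset_left
      · exact hA.inter measurableSet_Icc
    have hf1 : volume (A ∩ Icc (t k) (t k + b k)) ≠ ∞ :=
      ((measure_mono inter_subset_right).trans_lt measure_Icc_lt_top).ne
    have hf2 : volume (Aᶜ ∩ Ico (t k) (t k + b k)) ≠ ∞ :=
      ((measure_mono inter_subset_right).trans_lt measure_Ico_lt_top).ne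
    have h12 := ENNReal.toReal_mono ENNReal.ofReal_ne_top h11
    rw [ENNReal.toReal_add hf1 hf2, ENNReal.toReal_ofReal (hb k).le] at h12
    rw [h10, hvol, ENNReal.toReal_div, ENNReal.toReal_ofReal (hb k).le, div_le_iff₀ (hb k)]
    have h13 := (ht k hk).2
    nlinarith
  linarith

/-- **t_er**. -/
theorem t_er : Pool.Agent.H773.IE.S_er := by
  intro n T P τ hS c C hc hlev
  have hch : ∀ k : ℕ, ∃ b u l w p, b < 1 / ((k : ℝ) + 1) ∧ Lev T P τ c C b u l w p := fun k =>
    hlev _ Nat.one_div_pos_of_nat
  choose b u l w p hb hL using hch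
  have hb0 : Tendsto b atTop (𝓝 0) :=
    squeeze_zero (fun k => (hL k).bpos.le) (fun k => (hb k).le)
      tendsto_one_div_add_atTop_nhds_zero_nat
  have hY : ENNReal.ofReal c ≤ volume (lims fun k => floors τ (b k) (p k)) :=
    le_lims (fun k => measurableSet_floors _ _ _) (fun k => floors_sub hS (hL k))
      (fun k => le_floors (hL k))
  -- an invariant set whose complement has positive measure does not meet the limes superior
  have key : ∀ A : Set ℝ, MeasurableSet A → T ⁻¹' A = A → volume (Aᶜ ∩ Ico 0 1) ≠ 0 →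
      volume (A ∩ lims fun k => floors τ (b k) (p k)) = 0 := by
    intro A hA hAi hA0
    have hAc : T ⁻¹' Aᶜ = Aᶜ := by rw [preimage_compl, hAi]
    have hfin : volume (Aᶜ ∩ Ico 0 1) ≠ ∞ :=
      ((measure_mono inter_subset_right).trans_lt measure_Ico_lt_top).ne
    have ha : 0 < (volume (Aᶜ ∩ Ico 0 1)).toReal := ENNReal.toReal_pos hA0 hfin
    -- the constant is positive
    have hpos : 0 < (n : ℝ) * C := by
      have hp0 : 0 < (p 0).length := by
        by_contra h
        have h0 : (p 0).length = 0 := by omega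
        have h1 := (hL 0).high
        rw [h0, Nat.cast_zero, zero_mul] at h1
        linarith
      have h1 := floor_large hS (hL 0) hAc hp0
      have h2 : 0 < (volume (Aᶜ ∩ Ico 0 1)).toReal * b 0 := mul_pos ha (hL 0).bpos
      by_contra h3
      rw [not_lt] at h3
      have h4 : (n : ℝ) * C * (volume (Aᶜ ∩ floor τ (b 0) (p 0) 0)).toReal ≤ 0 :=
        mul_nonpos_of_nonpos_of_nonneg h3 ENNReal.toReal_nonneg
      linarith
    refine null_of_density hA _ b (fun k => (hL k).bpos) hb0
      ((volume (Aᶜ ∩ Ico 0 1)).toReal / (n * C)) (div_pos ha hpos) ?_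
    intro k x hx
    unfold floors at hx
    simp only [mem_iUnion, Finset.mem_range] at hx
    obtain ⟨j, hj, hx⟩ := hx
    refine ⟨tr τ ((p k).take j), hx, ?_⟩
    have h5 := floor_large hS (hL k) hAc hj
    rw [div_mul_eq_mul_div, div_le_iff₀ hpos, mul_comm _ ((n : ℝ) * C)]
    exact h5
  refine ⟨hS.mp, ⟨fun A hA hAi => ?_⟩⟩
  rw [eventuallyConst_set]
  by_cases h1 : volume (Aᶜ ∩ Ico 0 1) = 0
  · left
    rw [leb, ae_restrict_iff' measurableSet_Ico]
    rw [measure_eq_zero_iff_ae_notMem] at h1
    filter_upwards [h1] with x hx hx1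
    by_contra h2
    exact hx ⟨h2, hx1⟩
  · by_cases h2 : volume (A ∩ Ico 0 1) = 0
    · right
      rw [leb, ae_restrict_iff' measurableSet_Ico]
      rw [measure_eq_zero_iff_ae_notMem] at h2
      filter_upwards [h2] with x hx hx1 h3
      exact hx ⟨h3, hx1⟩
    · exfalso
      have h3 := key A hA hAi h1
      have h4 := key Aᶜ hA.compl (by rw [preimage_compl, hAi]) (by rw [compl_compl]; exact h2)
      have h5 : volume (lims fun k => floors τ (b k) (p k)) = 0 := by
        have h6 : (lims fun k => floors τ (b k) (p k)) ⊆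
            (A ∩ lims fun k => floors τ (b k) (p k)) ∪
              (Aᶜ ∩ lims fun k => floors τ (b k) (p k)) := by
          intro x hx
          by_cases hxA : x ∈ A
          · exact Or.inl ⟨hxA, hx⟩
          · exact Or.inr ⟨hxA, hx⟩
        refine le_antisymm ((measure_mono h6).trans ((measure_union_le _ _).trans ?_))
          zero_le
        rw [h3, h4, add_zero]
      rw [h5, nonpos_iff_eq_zero, ENNReal.ofReal_eq_zero] at hY
      linarith

end Pool.Agent.H549.IE
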